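import Pool.Agent.helper22.RG9.Spec

/-!
# Row rg9:LGF (MP_a2a22c_al): facts on the logarithm
-/

set_option autoImplicit false

namespace Pool.Agent.RG9

open Matrix Pool.Agent.H48SL Pool.Agent.UG

theorem LGF_key {n : ℕ} (g : SLZ n) (Z : MQ n) (hZ : IsNilpotent Z) (he : IsNilpotent.exp Z = qg g) : Unp g ∧ lg g = Z := by
  constructor
  · unfold Unp
    rw [← he]
    exact (EXJ n Z hZ).2.2.2.2.2.2.2
  · unfold lg
    rw [← he]
    exact (lgP_spec n).2.2 Z hZ

theorem LGF_poly {n : ℕ} (M N : MQ n) (hN : Commute M N) (p : Polynomial ℚ) : Commute M (Polynomial.aeval N p) := by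
  induction p using Polynomial.induction_on' with
  | add p q hp hq =>
    rw [map_add]
    exact hp.add_right hq
  | monomial k a =>
    rw [Polynomial.aeval_monomial]
    exact (Algebra.commute_algebraMap_right a M).mul_right (hN.pow_right k)

theorem LGF_one {n : ℕ} (g : SLZ n) (hg : Unp g) : IsNilpotent (lg g) ∧ IsNilpotent.exp (lg g) = qg g := by
  constructor
  · obtain ⟨Q, hQ⟩ := (lgP_spec n).1
    have e1 : lgP n = Polynomial.X * (1 + Polynomial.X * Q) := by
      calc lgP n = Polynomial.X + (lgP n - Polynomial.X) := by ring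
        _ = Polynomial.X * (1 + Polynomial.X * Q) := by rw [hQ]; ring
    unfold lg
    rw [e1, map_mul, Polynomial.aeval_X]
    have hc : Commute (qg g - 1) (Polynomial.aeval (qg g - 1) (1 + Polynomial.X * Q)) :=
      LGF_poly _ _ (Commute.refl _) _
    exact hc.isNilpotent_mul_right hg
  · unfold lg
    rw [(lgP_spec n).2.1 _ hg]
    abel

theorem LGF_comm {n : ℕ} (g : SLZ n) (M : MQ n) (h : M * qg g = qg g * M) : M * lg g = lg g * M := by
  have hN : Commute M (qg g - 1) := by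
    unfold Commute SemiconjBy
    rw [mul_sub, sub_mul, h, mul_one, one_mul]
  unfold lg
  exact LGF_poly _ _ hN _

theorem LGF_add {n : ℕ} (g h : SLZ n) (hg : Unp g) (hh : Unp h) (hc : g * h = h * g) : Unp (g * h) ∧ lg (g * h) = lg g + lg h := by
  obtain ⟨g1, g2⟩ := LGF_one g hg
  obtain ⟨h1, h2⟩ := LGF_one h hh
  have e1 : qg h * qg g = qg g * qg h := by rw [← qg_mul, ← qg_mul, hc]
  have e2 := LGF_comm g (qg h) e1
  have e3 := LGF_comm h (lg g) e2.symm
  have hcm : Commute (lg g) (lg h) := e3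
  refine LGF_key (g * h) (lg g + lg h) (hcm.isNilpotent_add g1 h1) ?_
  rw [IsNilpotent.exp_add_of_commute hcm g1 h1, g2, h2, qg_mul]

theorem LGF_unit (n : ℕ) : Unp (1 : SLZ n) ∧ lg (1 : SLZ n) = 0 := by
  refine LGF_key 1 0 IsNilpotent.zero ?_
  rw [IsNilpotent.exp_zero, qg_one]

theorem LGF : LGF_stmt := by
  intro n
  refine ⟨fun g hg => ⟨(LGF_one g hg).1, (LGF_one g hg).2, fun M hM => LGF_comm g M hM⟩, LGF_add, ?_, ?_, ?_, ?_,
    (LGF_unit n).1, (LGF_unit n).2⟩
  · intro g hg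
    obtain ⟨g1, g2⟩ := LGF_one g hg
    have hcm : Commute (-lg g) (lg g) := (Commute.refl (lg g)).neg_left
    refine LGF_key g⁻¹ (-lg g) g1.neg ?_
    have h1 := IsNilpotent.exp_add_of_commute hcm g1.neg g1
    rw [neg_add_cancel, IsNilpotent.exp_zero, g2] at h1
    calc IsNilpotent.exp (-lg g) = IsNilpotent.exp (-lg g) * (qg g * qg g⁻¹) := by rw [qg_mul_inv, mul_one]
      _ = (IsNilpotent.exp (-lg g) * qg g) * qg g⁻¹ := by rw [mul_assoc]
      _ = qg g⁻¹ := by rw [← h1, one_mul]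
  · intro g hg k
    induction k with
    | zero =>
      rw [pow_zero, Nat.cast_zero, zero_smul]
      exact LGF_unit n
    | succ k ih =>
      rw [pow_succ]
      have h1 := LGF_add (g ^ k) g ih.1 hg (by rw [← pow_succ, ← pow_succ'])
      refine ⟨h1.1, ?_⟩
      rw [h1.2, ih.2, Nat.cast_succ, add_smul, one_smul]
  · intro g x hg
    obtain ⟨g1, g2⟩ := LGF_one g hg
    obtain ⟨h1, h2⟩ := EXC n x (lg g) g1
    refine LGF_key (x * g * x⁻¹) _ h1 ?_
    rw [h2, g2, qg_mul, qg_mul]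
  · intro g h hg hh he
    apply qg_inj
    rw [← (LGF_one g hg).2, ← (LGF_one h hh).2, he]

end Pool.Agent.RG9
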